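import Mathlib

set_option autoImplicit false

namespace Pool.Agent.Results.MP_b60c25_lc.FourStates

/-- action of the local rule on finite words: `s_1 … s_m ↦ f(s_1,s_2) … f(s_{m-1},s_m)` -/
def onWord {S : Type} (f : S → S → S) (w : List S) : List S := List.zipWith f w w.tail

/-- the global map on configurations -/
def global {S : Type} (f : S → S → S) (c : ℤ → S) : ℤ → S := fun p => f (c p) (c (p + 1))

/-- `f` has a diamond of length `l` -/
def HasDiamond {S : Type} (f : S → S → S) (l : ℕ) : Prop :=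
  ∃ (p s : S) (c c' : List S), c.length = l ∧ c'.length = l ∧ c ≠ c' ∧
    onWord f (p :: c ++ [s]) = onWord f (p :: c' ++ [s])

def f0 (a b : Fin 4) : Fin 4 := !![2, 2, 1, 0; 3, 3, 0, 1; 2, 0, 1, 3; 0, 1, 3, 2] a b

theorem n1 : ∀ p a a' : Fin 4, f0 p a = f0 p a' → ∀ s, f0 a s = f0 a' s → a = a' := by decide
theorem n2 : ∀ p a a' : Fin 4, f0 p a = f0 p a' → ∀ b b', f0 a b = f0 a' b' →
    ∀ s, f0 b s = f0 b' s → a = a' ∧ b = b' := by decide +kernel
theorem n3 : ∀ p a a' : Fin 4, f0 p a = f0 p a' → ∀ b b', f0 a b = f0 a' b' →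
    ∀ c c', f0 b c = f0 b' c' → ∀ s, f0 c s = f0 c' s → a = a' ∧ b = b' ∧ c = c' := by
  decide +kernel
theorem n4 : ∀ p a a' : Fin 4, f0 p a = f0 p a' → ∀ b b', f0 a b = f0 a' b' →
    ∀ c c', f0 b c = f0 b' c' → ∀ d d', f0 c d = f0 c' d' → ∀ s, f0 d s = f0 d' s →
    a = a' ∧ b = b' ∧ c = c' ∧ d = d' := by decide +kernel

theorem orphan : ∀ a b : Fin 4, f0 a b = 1 → ∀ c, f0 b c = 2 → ∀ d, f0 c d = 1 →
    ∀ e, f0 d e = 2 → ∀ g, f0 e g ≠ 3 := by decide +kernel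

theorem result :
    ∃ f : Fin 4 → Fin 4 → Fin 4, ¬ Function.Surjective (global f) ∧
      IsLeast {l : ℕ | HasDiamond f l} 5 := by
  refine ⟨f0, ?_, ⟨0, 0, [0, 3, 3, 3, 2], [1, 2, 0, 1, 0], rfl, rfl, by decide, by decide⟩, ?_⟩
  · intro h
    obtain ⟨c, hc⟩ := h (fun i => if i = 4 then 3 else if i = 0 ∨ i = 2 then 1 else 2)
    have h0 := congrFun hc 0
    have h1 := congrFun hc 1
    have h2 := congrFun hc 2
    have h3 := congrFun hc 3
    have h4 := congrFun hc 4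
    norm_num [global] at h0 h1 h2 h3 h4
    exact orphan _ _ h0 _ h1 _ h2 _ h3 _ h4
  · rintro l ⟨p, s, c, c', h1, h2, hne, h⟩
    by_contra hl
    apply hne
    have hl' : l < 5 := by omega
    interval_cases l
    · rw [List.length_eq_zero_iff] at h1 h2
      rw [h1, h2]
    · obtain ⟨a, rfl⟩ := List.length_eq_one_iff.1 h1
      obtain ⟨a', rfl⟩ := List.length_eq_one_iff.1 h2
      simp [onWord] at h
      rw [n1 _ _ _ h.1 _ h.2]
    · obtain ⟨a, b, rfl⟩ := List.length_eq_two.1 h1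
      obtain ⟨a', b', rfl⟩ := List.length_eq_two.1 h2
      simp [onWord] at h
      obtain ⟨e1, e2⟩ := n2 _ _ _ h.1 _ _ h.2.1 _ h.2.2
      rw [e1, e2]
    · obtain ⟨a, b, c, rfl⟩ := List.length_eq_three.1 h1
      obtain ⟨a', b', c', rfl⟩ := List.length_eq_three.1 h2
      simp [onWord] at h
      obtain ⟨e1, e2, e3⟩ := n3 _ _ _ h.1 _ _ h.2.1 _ _ h.2.2.1 _ h.2.2.2
      rw [e1, e2, e3]
    · obtain ⟨a, b, c, d, rfl⟩ := List.length_eq_four.1 h1
      obtain ⟨a', b', c', d', rfl⟩ := List.length_eq_four.1 h2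
      simp [onWord] at h
      obtain ⟨e1, e2, e3, e4⟩ := n4 _ _ _ h.1 _ _ h.2.1 _ _ h.2.2.1 _ _ h.2.2.2.1 _ h.2.2.2.2
      rw [e1, e2, e3, e4]

end Pool.Agent.Results.MP_b60c25_lc.FourStates
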